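import Mathlib
import Pool.Graph.R_seed8.Helper332.SAD.Statements
import Pool.Agent.H728.CS.Space
import Pool.Agent.H728.CS.Force3

/-!
# Compact continuous images of `C_p(K)` for scattered compact `K`

The statement of Question 1 is independent of ZFC.

The sentences of the forcing language of a preordered set `P` are represented by the sets of the
conditions forcing them; see `Pool.Graph.R_seed8.Helper292.ForceCH` for the connectives, the names,
`OmegaOnePreserved` and `CHHolds`. The principle `SchemePrinciple` and its word by word translation
`SchemePrincipleN` are defined in `Pool.Agent.H728.CS.Defs`; the hypothesis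
`StronglyAlmostDisjoint` and its translation `SADHolds` are defined in
`Pool.Graph.R_seed8.Helper332.SAD`.
-/

set_option autoImplicit false

namespace Pool.Agent.Results.MP_b07c92_gt.ScatteredIndependent

open Cardinal Set
open Pool.Agent.Helper332.SAD (SADHolds StronglyAlmostDisjoint CH)
open Pool.Agent.Helper332.SADSpace (Scattered)
open Pool.Agent.Helper292.ForceCH (OmegaOnePreserved CHHolds)
open Pool.Agent.H728.CS (SchemePrinciple SchemePrincipleN)

/-- The statement of Question 1: for every scattered compact space `K`, every compact (Hausdorff)
continuous image of `C_p(K)` is metrizable. The set of the continuous real functions on `K` carries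
the subspace topology of the product `K → ℝ`. -/
def Q1 : Prop :=
  ∀ (K : Type) [TopologicalSpace K] [CompactSpace K] [T2Space K], Scattered K →
    ∀ (Y : Type) [TopologicalSpace Y] [CompactSpace Y] [T2Space Y]
      (φ : {g : K → ℝ // Continuous g} → Y), Continuous φ → Function.Surjective φ →
        TopologicalSpace.MetrizableSpace Y

/-- (1) Some forcing notion forces that `ω₁` is preserved, that the continuum hypothesis holds, and
the scheme principle. (2) The continuum hypothesis and the scheme principle together imply the
statement of Question 1. (3) Some forcing notion forces that `ω₁` is preserved and that there are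
`2^{ω₁}` strongly almost disjoint functions `ω₁ → ω`. (4) If there are `2^{ω₁}` strongly almost
disjoint functions `ω₁ → ω`, then the statement of Question 1 fails. -/
theorem result :
    (∃ (P : Type) (_ : Preorder P), Nonempty P ∧
      ∀ p : P, p ∈ OmegaOnePreserved P ∧ p ∈ CHHolds P ∧ p ∈ SchemePrincipleN P) ∧
    (CH → SchemePrinciple → Q1) ∧
    (∃ (P : Type) (_ : Preorder P) (I : Type), Nonempty P ∧
      ∀ p : P, p ∈ OmegaOnePreserved P ∧ p ∈ SADHolds P I) ∧
    (StronglyAlmostDisjoint → ¬ Q1) := by
  refine ⟨Pool.Agent.H728.CS.exists_forcing, ?_, Pool.Agent.Helper332.SAD.exists_forcing, ?_⟩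
  · intro hCH hS K _ _ _ hK Y _ _ _ φ hφ hs
    exact Pool.Agent.H728.CS.images_metrizable hCH hS K hK Y φ hφ hs
  · rintro ⟨I, f, e, hf, he⟩
    obtain ⟨K, _, hc, ht, hsc, -, -, Y, _, φ, hYc, hYt, hφ, hs, hnm⟩ :=
      Pool.Agent.Helper332.SADSpace.space_of_sad I f e hf he
    exact fun h => hnm (h K hsc Y φ hφ hs)

end Pool.Agent.Results.MP_b07c92_gt.ScatteredIndependent
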